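import Pool.Agent.Helper95.PW.Stmts

/-!
# Heavy atoms: Cauchy-Schwarz for the form of the atom (row CSQ)
-/

set_option autoImplicit false

namespace Pool.Agent.Helper95.PW

open MeasureTheory Filter

theorem csq_quad {α : Type*} [MeasurableSpace α] {μ : Measure α} (W f g : α → ℝ) (a b : ℝ)
    (h1 : Integrable (fun x => W x * (f x * f x)) μ)
    (h2 : Integrable (fun x => W x * (f x * g x)) μ)
    (h3 : Integrable (fun x => W x * (g x * g x)) μ) :
    ∫ x, W x * ((a * f x + b * g x) * (a * f x + b * g x)) ∂μ =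
      a ^ 2 * (∫ x, W x * (f x * f x) ∂μ) + 2 * a * b * (∫ x, W x * (f x * g x) ∂μ) +
        b ^ 2 * ∫ x, W x * (g x * g x) ∂μ := by
  have e : (fun x => W x * ((a * f x + b * g x) * (a * f x + b * g x))) = fun x =>
      a ^ 2 * (W x * (f x * f x)) + 2 * a * b * (W x * (f x * g x)) +
        b ^ 2 * (W x * (g x * g x)) := by
    funext x
    ring
  have i1 : Integrable (fun x => a ^ 2 * (W x * (f x * f x))) μ := h1.const_mul _
  have i2 : Integrable (fun x => 2 * a * b * (W x * (f x * g x))) μ := h2.const_mul _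
  have i3 : Integrable (fun x => b ^ 2 * (W x * (g x * g x))) μ := h3.const_mul _
  have i4 : Integrable (fun x => a ^ 2 * (W x * (f x * f x)) + 2 * a * b * (W x * (f x * g x))) μ :=
    i1.add i2
  rw [e, integral_add i4 i3, integral_add i1 i2, integral_const_mul, integral_const_mul,
    integral_const_mul]

theorem csq_int {n : ℕ} {f g : Cf n → ℝ} (hf : Continuous f) (hfc : HasCompactSupport f)
    (hg : Continuous g) : Integrable (fun x => f x * g x) :=
  (hf.mul hg).integrable_of_hasCompactSupport hfc.mul_right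

theorem csq_ip {n : ℕ} (f g : Wf n) (a b : ℝ) (hf : ∀ s, Continuous (f s))
    (hfc : ∀ s, HasCompactSupport (f s)) (hg : ∀ s, Continuous (g s))
    (hgc : ∀ s, HasCompactSupport (g s)) :
    ip (fun s x => a * f s x + b * g s x) (fun s x => a * f s x + b * g s x) =
      a ^ 2 * ip f f + 2 * a * b * ip f g + b ^ 2 * ip g g := by
  unfold ip
  rw [Finset.mul_sum, Finset.mul_sum, Finset.mul_sum, ← Finset.sum_add_distrib,
    ← Finset.sum_add_distrib]
  refine Finset.sum_congr rfl fun s _ => ?_
  have h1 : Integrable (fun x => (1 : ℝ) * (f s x * f s x)) := by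
    simpa using csq_int (hf s) (hfc s) (hf s)
  have h2 : Integrable (fun x => (1 : ℝ) * (f s x * g s x)) := by
    simpa using csq_int (hf s) (hfc s) (hg s)
  have h3 : Integrable (fun x => (1 : ℝ) * (g s x * g s x)) := by
    simpa using csq_int (hg s) (hgc s) (hg s)
  have := csq_quad (μ := volume) (fun _ => (1 : ℝ)) (f s) (g s) a b h1 h2 h3
  simpa only [one_mul] using this

theorem csq_sq {n : ℕ} (u : Wf n) : sq u = ip u u := by
  unfold sq ip
  refine Finset.sum_congr rfl fun s _ => ?_
  refine integral_congr_ae (Eventually.of_forall fun x => ?_)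
  show u s x ^ 2 = u s x * u s x
  ring

theorem csq_dv {n : ℕ} (k : Fin n) (i : Fin 3) (f g : Cf n → ℝ) (a b : ℝ)
    (hf : ContDiff ℝ (⊤ : ℕ∞) f) (hg : ContDiff ℝ (⊤ : ℕ∞) g) (x : Cf n) :
    dv k i (fun x => a * f x + b * g x) x = a * dv k i f x + b * dv k i g x := by
  unfold dv
  have h1 : DifferentiableAt ℝ f x := (hf.differentiable (by simp)).differentiableAt
  have h2 : DifferentiableAt ℝ g x := (hg.differentiable (by simp)).differentiableAt
  rw [fderiv_fun_add (h1.const_mul a) (h2.const_mul b), fderiv_const_mul h1, fderiv_const_mul h2]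
  rfl

theorem csq_dvc {n : ℕ} (k : Fin n) (i : Fin 3) (f : Cf n → ℝ) (hf : ContDiff ℝ (⊤ : ℕ∞) f) :
    Continuous (dv k i f) := by
  unfold dv
  exact (hf.continuous_fderiv (by simp)).clm_apply continuous_const

theorem csq_dvs {n : ℕ} (k : Fin n) (i : Fin 3) (f : Cf n → ℝ) (hf : HasCompactSupport f) :
    HasCompactSupport (dv k i f) := by
  unfold dv
  exact (hf.fderiv ℝ).comp_left (g := fun L : Cf n →L[ℝ] ℝ => L (Pi.single k (Pi.single i 1))) rfl

theorem st_CSQ (h1 : ST_QH) (h2 : ST_INT) : ST_CSQ := by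
  intro n Z E u v hE hu hau hv hav
  have key : ∀ a b : ℝ, 0 ≤ a ^ 2 * (Q Z u - E * sq u) + 2 * a * b * (Qb Z u v - E * ip u v) +
      b ^ 2 * (Q Z v - E * sq v) := by
    intro a b
    set ψ : Wf n := fun s x => a * u s x + b * v s x with hψ
    have hs : Sm ψ := fun s => ⟨(contDiff_const.mul (hu s).1).add (contDiff_const.mul (hv s).1),
      ((hu s).2.mul_left).add ((hv s).2.mul_left)⟩
    have ha : Anti ψ := by
      intro π s x
      simp only [hψ]
      rw [hau π s x, hav π s x]
      ring
    have hL := hE ψ hs ha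
    have hq : Qb Z ψ ψ = a ^ 2 * Qb Z u u + 2 * a * b * Qb Z u v + b ^ 2 * Qb Z v v := by
      unfold Qb
      have e1 : ∀ k i, ip (fun s => dv k i (ψ s)) (fun s => dv k i (ψ s)) =
          a ^ 2 * ip (fun s => dv k i (u s)) (fun s => dv k i (u s)) +
            2 * a * b * ip (fun s => dv k i (u s)) (fun s => dv k i (v s)) +
            b ^ 2 * ip (fun s => dv k i (v s)) (fun s => dv k i (v s)) := by
        intro k i
        have e : (fun s => dv k i (ψ s)) = fun s x =>
            a * (fun s => dv k i (u s)) s x + b * (fun s => dv k i (v s)) s x := by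
          funext s x
          exact csq_dv k i (u s) (v s) a b (hu s).1 (hv s).1 x
        rw [e]
        exact csq_ip _ _ a b (fun s => csq_dvc k i _ (hu s).1) (fun s => csq_dvs k i _ (hu s).2)
          (fun s => csq_dvc k i _ (hv s).1) (fun s => csq_dvs k i _ (hv s).2)
      have e2 : ∀ s, ∫ x, (rep x - Z * att x) * (ψ s x * ψ s x) =
          a ^ 2 * (∫ x, (rep x - Z * att x) * (u s x * u s x)) +
            2 * a * b * (∫ x, (rep x - Z * att x) * (u s x * v s x)) +
            b ^ 2 * ∫ x, (rep x - Z * att x) * (v s x * v s x) := by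
        intro s
        have hi : ∀ f g : Cf n → ℝ, ContDiff ℝ (⊤ : ℕ∞) f → HasCompactSupport f →
            ContDiff ℝ (⊤ : ℕ∞) g → HasCompactSupport g →
            Integrable (fun x => (rep x - Z * att x) * (f x * g x)) := by
          intro f g hf hfc hg hgc
          obtain ⟨i1, i2, -, -⟩ := h2 n f g hf hfc hg hgc
          have := i2.sub (i1.const_mul Z)
          refine this.congr (Eventually.of_forall fun x => ?_)
          show rep x * (f x * g x) - Z * (att x * (f x * g x)) =
            (rep x - Z * att x) * (f x * g x)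
          ring
        exact csq_quad (μ := volume) (fun x => rep x - Z * att x) (u s) (v s) a b
          (hi _ _ (hu s).1 (hu s).2 (hu s).1 (hu s).2)
          (hi _ _ (hu s).1 (hu s).2 (hv s).1 (hv s).2)
          (hi _ _ (hv s).1 (hv s).2 (hv s).1 (hv s).2)
      simp only [e1, e2, Finset.sum_add_distrib, ← Finset.mul_sum]
      ring
    have hsq : sq ψ = a ^ 2 * sq u + 2 * a * b * ip u v + b ^ 2 * sq v := by
      rw [csq_sq, csq_sq, csq_sq]
      exact csq_ip u v a b (fun s => (hu s).1.continuous) (fun s => (hu s).2)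
        (fun s => (hv s).1.continuous) (fun s => (hv s).2)
    rw [(h1 n Z ψ ψ hs hs).2, hq, hsq, ← (h1 n Z u u hu hu).2, ← (h1 n Z v v hv hv).2] at hL
    linarith
  have hd := discrim_le_zero (a := Q Z u - E * sq u) (b := 2 * (Qb Z u v - E * ip u v))
    (c := Q Z v - E * sq v) (fun t => by have := key t 1; nlinarith)
  unfold discrim at hd
  nlinarith

end Pool.Agent.Helper95.PW
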